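import Pool.Agent.H442.SpecD
import Pool.Agent.H442.Fin6
set_option autoImplicit false

/-!
Beilinson's conjecture for `K_j^(j)`, `j = d + 1`: independent integral classes on varieties of
dimension `d` over the rational numbers.

Let `P_1, ..., P_d` be products of cyclotomic polynomials, of degrees at least two. For monic
polynomials `A`, `D` of degrees `n > p ≥ 1` consider the variety
`D(x) P_1(y_1) ... P_d(y_d) = A(x) y_1 ... y_d ≠ 0`, that is `∏ P_l(y_l) / y_l = A(x) / D(x)`, of
dimension `d`. For `r p < n` the varieties of this form over the rational numbers with `r` classes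
in `K_{d+1}`, unramified at all discrete valuations and with independent regulators, are Zariski
dense in the space of all pairs `(A, D)`. For example, for `P_l = (y - 1)^2` these are classes on
the fibrations `∏ (y_l + 1/y_l - 2) = A(x) / D(x)` over the line.

The members are, up to translations of `x`, `D = ∏_{l ≤ p} (x - β_l)`, `β_l` different prime
numbers, and `A = x ∏_{k ≤ r} R_k ∏_i (x - λ_i)` with the monic polynomials `R_k ≡ x^{j_k} mod D`
of degree `p`, with large different exponents `j_k`; the classes are the symbols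
`{R_k(x) / x^{j_k}, y_1, ..., y_d}`.
-/

namespace Pool.Agent.Results.MP_4a177b_nt.FibrationsOverTheLine

open Polynomial

open Pool.Agent.TH826.MK (KQ KQ.map Unramified Torus)

open Pool.Agent.H442

/-- Let `P_1, ..., P_d` be products of cyclotomic polynomials of degrees at least two, and let
`p, r ≥ 1` and `r p < n`. For every nonzero complex polynomial `H` in the `n + p` coefficients of a
pair of monic polynomials of degrees `n` and `p` there are monic polynomials `A`, `D` in `ℤ[x]` of
degrees `n` and `p`, which are not a zero of `H`, such that for the coordinate ring `VR P A D` of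
the variety `D(x) P_1(y_1) ... P_d(y_d) = A(x) y_1 ... y_d ≠ 0` over `ℚ` there are `r` classes in
`K_{d+1}(VR P A D) ⊗ ℚ`, whose images in all fields `L` with a homomorphism `VR P A D → L` are
unramified at all discrete valuations of `L`, and `r` tori of dimension `d` in the complex points,
at which the derivative of the equation with respect to `x` is different from zero, such that the
determinant of the regulators of the classes on the tori is different from zero. -/
theorem result.{v} {d : ℕ} {s : Fin d → ℕ} (c : (l : Fin d) → Fin (s l) → ℕ)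
    (hc : ∀ l i, 0 < c l i) (P : Fin d → ℤ[X]) (hP : ∀ l, P l = ∏ i, cyclotomic (c l i) ℤ)
    (hN : ∀ l, 2 ≤ (P l).natDegree) (n p r : ℕ) (hp : 1 ≤ p) (hr : 1 ≤ r) (hrp : r * p < n)
    (H : MvPolynomial (Fin n ⊕ Fin p) ℂ) (hH : H ≠ 0) :
    ∃ A D : ℤ[X], A.Monic ∧ A.natDegree = n ∧ D.Monic ∧ D.natDegree = p ∧
      MvPolynomial.eval (Sum.elim (fun i : Fin n => (A.coeff i : ℂ))
        (fun l : Fin p => (D.coeff l : ℂ))) H ≠ 0 ∧
      ∃ w : Fin r → KQ (VR P A D) (d + 1),
        (∀ (k : Fin r) (L : Type v) [Field L] (f : VR P A D →+* L),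
          KQ.map (d + 1) f (w k) ∈ Unramified L (d + 1)) ∧
        ∃ Γ : Fin r → Torus (VR P A D) d,
          (∀ i θ, (Γ i).e θ (mkV P A D (MvPolynomial.pderiv (Sum.inr 0) (eqnV P A D))) ≠ 0) ∧
          (Matrix.of fun i k => (Γ i).reg (w k)).det ≠ 0 := by
  obtain ⟨g, rfl⟩ : ∃ g, n = g + 1 := ⟨n - 1, by omega⟩
  have hPc : ∀ l, P l = cycP (c l) := hP
  obtain ⟨H', hH', hHH⟩ := exists_rat H hH
  have hV : ¬ Van3 r (g - r * p) H' := fun h => hH' (dens3 hp (by omega) h)
  unfold Van3 at hV
  push Not at hV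
  obtain ⟨β, hβ, hpr, lam, hV⟩ := hV
  have hMm : (∏ i, (X - C (lam i)) : ℤ[X]).Monic := monic_prod_of_monic _ _ fun _ _ =>
    monic_X_sub_C _
  have hMd : (∏ i, (X - C (lam i)) : ℤ[X]).natDegree = g - r * p := by
    rw [natDegree_prod_of_monic _ _ fun _ _ => monic_X_sub_C _]
    simp only [natDegree_X_sub_C, Finset.sum_const, Finset.card_univ, Fintype.card_fin,
      smul_eq_mul, mul_one]
  obtain ⟨J, hJ⟩ := specD hc (fun l => by rw [← hPc]; exact hN l) hp hβ
    (fun l => (hpr l).two_le) hMm (r := r) (by omega)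
  obtain ⟨j, hj, hjJ, ν, hne⟩ := hV J
  have hAm : (X * (∏ k, Rz β (j k)) * ∏ i, (X - C (lam i)) : ℤ[X]).Monic :=
    (monic_X.mul (monic_prod_of_monic _ _ fun k _ => Rz_monic β (j k))).mul hMm
  have hAd : (X * (∏ k, Rz β (j k)) * ∏ i, (X - C (lam i)) : ℤ[X]).natDegree = g + 1 := by
    rw [(monic_X.mul (monic_prod_of_monic _ _ fun k _ => Rz_monic β (j k))).natDegree_mul hMm,
      monic_X.natDegree_mul (monic_prod_of_monic _ _ fun k _ => Rz_monic β (j k)), hMd,
      natDegree_X, natDegree_prod_of_monic _ _ fun k _ => Rz_monic β (j k)]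
    simp only [Rz_natDegree, Finset.sum_const, Finset.card_univ, Fintype.card_fin, smul_eq_mul]
    omega
  have hX1 : (X + C ν : ℤ[X]).natDegree = 1 := natDegree_X_add_C ν
  have hAF : AF (fun k => Rz β (j k)) lam ν =
      (X * (∏ k, Rz β (j k)) * ∏ i, (X - C (lam i))).comp (X + C ν) := rfl
  rw [hAF] at hne
  refine ⟨(X * (∏ k, Rz β (j k)) * ∏ i, (X - C (lam i))).comp (X + C ν),
    (Dz β).comp (X + C ν), hAm.comp (monic_X_add_C ν) (by rw [hX1]; norm_num),
    by rw [natDegree_comp, hX1, mul_one, hAd],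
    (Dz_monic β).comp (monic_X_add_C ν) (by rw [hX1]; norm_num),
    by rw [natDegree_comp, hX1, mul_one, Dz_natDegree], ?_,
    hJ j hj hjJ ν P _ _ hPc rfl rfl⟩
  have h3 := hHH (Sum.elim (fun i : Fin (g + 1) =>
      (((X * (∏ k, Rz β (j k)) * ∏ i, (X - C (lam i))).comp (X + C ν)).coeff i : ℚ))
    (fun l : Fin p => (((Dz β).comp (X + C ν)).coeff l : ℚ))) (by
      rw [MvPolynomial.aeval_def, MvPolynomial.eval₂_eq_eval_map] at hne
      simpa using hne)
  have h4 : (fun i => algebraMap ℚ ℂ (Sum.elim (fun i : Fin (g + 1) =>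
      (((X * (∏ k, Rz β (j k)) * ∏ i, (X - C (lam i))).comp (X + C ν)).coeff i : ℚ))
      (fun l : Fin p => (((Dz β).comp (X + C ν)).coeff l : ℚ)) i)) =
      Sum.elim (fun i : Fin (g + 1) =>
        (((X * (∏ k, Rz β (j k)) * ∏ i, (X - C (lam i))).comp (X + C ν)).coeff i : ℂ))
        (fun l : Fin p => (((Dz β).comp (X + C ν)).coeff l : ℂ)) := by
    funext i
    rcases i with i | i <;> simp
  rwa [h4] at h3

end Pool.Agent.Results.MP_4a177b_nt.FibrationsOverTheLine
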