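import Pool.Agent.H839.PZ.One

/-!
# The regulator on `K_j^{(j)}` of one variety and finitely many graph hypersurfaces

Let `S` be **one** smooth projective variety over `ℚ`, and let `j ≥ 2`. Part (1) of the question Q1 for `S`
and `j` is whether the regulator
`K_j(S)^{(j)}_ℤ ⊗ ℝ = H_M^j(S, ℚ(j))_ℤ ⊗ ℝ → H_𝒟^j(S_ℝ, ℝ(j)) = H^{j-1}(S(ℂ), ℝ(j-1))^+` is an isomorphism
(`Iso`).

For a smooth projective scheme `Y` over `ℚ` let `M^m(Y) = H_M^{2m-j}(Y, ℚ(m))_ℤ ⊗ ℝ` (integral part,
Scholl; the part of `K_j(Y)` of weight `m`) and `D^m(Y) = H_𝒟^{2m-j}(Y_ℝ, ℝ(m))`, with the regulator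
`r : M^m(Y) → D^m(Y)`. The cycles `c` on `S × Y` of the codimension `m - j + dim S` operate by
`c_* : M^j(S) → M^m(Y)` and `c_* : D^j(S) → D^m(Y)`. Let `A^m(Y) ⊆ D^m(Y)` be the image of `r`, and
`B^m(Y) = B_1^m(Y) ⊕ B_2^m(Y)`, where `B_1^m(Y) ⊆ D^m(Y)` is the sum of `A^m(Y)` and of the images
`c_* D^j(S)`, and `B_2^m(Y) ⊆ M^m(Y)` the sum of the images `c_* N` of the kernel `N` of the regulator for
`S`, for all cycles `c` as above. They are additive functors of the Chow motive of `Y`, and the map
`A^m(Y) → B^m(Y)` is bijective if and only if `RegStable D m Y` holds. For a separated scheme `Z` of finite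
type over `ℚ` with the weight complex `W(Z)` (Gillet, Soulé) let `A^{m,i}(Z) = H^i(A^m(W(Z)))`,
`B^{m,i}(Z) = H^i(B^m(W(Z)))`; `BijAll C Z` says that the maps `A^{m,i}(Z) → B^{m,i}(Z)` are isomorphisms for
all `m` and `i`. (These data are the ones of the library, `Q68.OV.Reg`, where the same is done with cubic
hypersurfaces `T(x, y, z) = 1`.)

For a finite graph `G` let `Y_G` be the complement of its graph hypersurface, that is the open subscheme
of the affine space over `ℚ` of the edge weights where the Kirchhoff polynomial (the weighted number of the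
spanning trees, the determinant of the reduced Laplace matrix) is not zero.

**Theorem.** For each `S` and `j` there is a finite list `L` of finite simple graphs of maximal degree at
most three, which depends only on `S` and `j`, such that the regulator is an isomorphism for `S` and `j` if
and only if the maps `A^{m,i}(Y_G) → B^{m,i}(Y_G)` are isomorphisms for all `m` and `i` and the finitely many
graphs `G` in `L`. If it is, they are isomorphisms for all finite graphs of maximal degree at most three.
-/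

set_option autoImplicit false

open CategoryTheory CategoryTheory.Limits AlgebraicGeometry Pool.Agent.Y116.UV Pool.Agent.Z125.UN
  Pool.Agent.Q193.LT Pool.Agent.Q49.WU Pool.Agent.Q68.OV Pool.Agent.H839.PZ

universe w u

namespace Pool.Agent.Results.MP_4a177b_nt.FinitelyManyGraphs

/-- A smooth projective variety `S` over `ℚ` and the regulators: `M m Y` and `D m Y` are
`H_M^{2m-j}(Y, ℚ(m))_ℤ ⊗ ℝ` and `H_𝒟^{2m-j}(Y_ℝ, ℝ(m))`, `reg` is the regulator, `Cyc m Y` the type of the
cycles of codimension `m - j + dim S` on `S × Y`. -/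
abbrev VarietyData (S : Sch ℚ) (j : ℤ) := RegData.{w, 0, u} ℚ ℝ S j

/-- **The regulator on `K_j^{(j)}` of one variety and finitely many graph hypersurfaces.** See the
explanations above; `zero` is the case of dimension zero, the theorem of Borel. -/
theorem result {S : Sch ℚ} (hS : SmoothProj S) (j : ℤ) (_hj : 2 ≤ j) :
    ∃ L : List Gph, ∀ (D : VarietyData.{w, u} S j) (C : PairData.{w} ℚ (ℤ × ℤ) ℝ), IsReg D →
      IsWeightPair C → WeightGen C →
      (∀ Y, SmoothProj Y → ∀ m, (BijAt C Prod.fst m Y ↔ RegStable D m Y)) →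
      (zero : ∀ Y : Sch ℚ, SmoothProj Y → topologicalKrullDim Y.left ≤ (0 : ℕ) → BijAll C Y) →
      (Iso D ↔ ∀ g ∈ L, BijAll C (g.co ℚ)) ∧
      (Iso D → ∀ g : Gph, BijAll C (g.co ℚ)) := by
  obtain ⟨N, G, h⟩ := reg_kirch.{w, 0, u} hS j
  refine ⟨G, fun D C hD hC hg bij zero => ?_⟩
  obtain ⟨_, h2, h3⟩ := h ℝ D C hD hC hg bij (point_of_zero hg zero)
  exact ⟨h2 frac_rat, fun hp => (h3 hp).2⟩

end Pool.Agent.Results.MP_4a177b_nt.FinitelyManyGraphs
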