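import Pool.Agent.H367.OT.GFam

/-!
# Beilinson's conjecture for `K_j^{(j)}` and one sequence of cubics over the integers

A relation `r` of size `m` is one of the equations `x_i x_j = x_l`, `x_i + x_j = x_l`, `x_i = 1` with
`i, j, l < m`; the relations are numbered, the number of `r` is `ν(r)` (`relNum`), and `R_m` is the
number of all relations (`numRel m`). Let `G_m` be the following polynomial with integral coefficients
(`univG ℤ m`). There are variables `x_i` and `z_ij` for `i, j < m`, a variable `c_r` for every relation
`r`, and variables `y_{r,l}` for all relations `r` and `l < (m + 1)^2 2 ^ ν(r)`. The equations (`eqnG`)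
are

  `z_ij - x_i x_j`,  `c_r ^ 2 - c_r`,  `c_r ρ_r`,  `(1 - c_r) y_{r,l}`,

where `ρ_r` is the linear polynomial `z_ij - x_l`, `x_i + x_j - x_l` or `x_i - 1` of the relation.
`G_m` is the sum of the equations multiplied by further variables `t_e`, one for each equation. It has
degree three. Let `C_m` be the affine cubic hypersurface `G_m = 1` (`cubG R m` over the ring `R`); it is
smooth over the integers.

For a smooth projective scheme `Y` over `ℚ`, `n ≥ 2` and `q ∈ ℤ` let `A_n^q(Y) = K_n(Y)^{(q)}_ℤ ⊗ ℝ`
(the integral part of Scholl, `K_n(Y)^{(q)} = H_M^{2q-n}(Y, ℚ(q))`) and `B_n^q(Y) = H_𝒟^{2q-n}(Y_ℝ,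
ℝ(q))`, with the regulator `A_n^q(Y) → B_n^q(Y)`. Part (1) of question Q1 is that the regulator is
bijective for `n = q = j`, for all `Y` and `j ≥ 2`. For fixed `n` the groups `A_n^q(Y)` and `B_n^q(Y)`
are additive functors of the Chow motive of `Y`, and they are zero for `q < 0` and `q > dim Y + n`.

For a separated scheme `X` of finite type over `ℚ` let `W(X)` be the weight complex (Gillet, Soulé; a
complex of Chow motives over `ℚ` with rational coefficients, for the cohomology with compact supports;
`W(X) = h(X)` for smooth projective `X`), and put `A_n^{q,i}(X) = H^i(A_n^q(W(X)))` and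
`B_n^{q,i}(X) = H^i(B_n^q(W(X)))`. `BijAt (C n) Prod.fst q X` says that the maps
`A_n^{q,i}(X) → B_n^{q,i}(X)` are isomorphisms for this `n`, `q` and all `i`.

**Theorem.** Let `E_m` be the number of the equations, and for `N ∈ ℕ` let
`idx m q N = q + (m + 1)^2 N + E_m - 1`.

(1) Part (1) of question Q1 has a positive answer (for all smooth projective varieties and all `j ≥
2`) if and only if, for infinitely many `m`, the maps `A_j^{idx m j N, i}(C_m) → B_j^{idx m j N,
i}(C_m)` are isomorphisms for all `i`, all `2 ≤ j ≤ m / 2` and all `N < 2 ^ R_m`.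

(2) For all `n ≥ 2` and `q ≥ -n` the regulators `A_n^q(Y) → B_n^q(Y)` are bijective for all smooth
projective `Y` over `ℚ` if and only if the maps `A_n^{idx m q N, i}(C_m) → B_n^{idx m q N, i}(C_m)`
are isomorphisms for all `i` and all `N < 2 ^ R_m`, for infinitely many `m`. For `n = q = j` this is
question Q1 (1) for one `j`.

(3) For every `n ≥ 2` the hypersurfaces decide the statements (`Decides n`): for every affine scheme
`Spec B` of finite type over `ℚ` and all large `m` there is an `N` such that for `-n ≤ q ≤ m` the
statement with the index `q` for `Spec B` is equivalent to the one with the index `idx m q N` for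
`C_m`; and for every separated scheme `X` of finite type and all large `m` the statements with the
indices `idx m q N` for `C_m` imply the statement with the index `q` for `X`.

(4) `G_m` has integral coefficients and degree at most three, and `C_m` is smooth over all rings.

The hypotheses are standard: localisation sequences, affine bundles and products with `𝔾_m`
(`IsWeightPair`); the weight complex of a scheme of dimension at most `d` consists of direct factors
of motives of smooth projective varieties of dimension at most `d` (`GenAt`, `PBound`). Nothing is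
assumed on the regulator for the point.

Idea of the proof. The projection of `C_m` to the affine space with the coordinates `x, z, c, y` is an
affine bundle over the complement of the zero set `W_m` of the equations. The scheme `W_m` is the
disjoint union, over all sets `s` of relations (`c_r = 1` for `r ∈ s` and `c_r = 0` for the others), of
the products `X_s × 𝔸 ^ ((m + 1)^2 N(s))`, where `X_s` is the affine scheme defined by the relations in
`s` and `N(s) = ∑_{r ∈ s} 2 ^ ν(r)`. The numbers `N(s) < 2 ^ R_m` are different, and the dimension of `X_s`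
is at most `m`. The invariants with the indices `q < -c` and `q > dim + c` are zero, and `m + 2 c` is less
than `(m + 1)^2`. So the invariant of `W_m` with the index `q + (m + 1)^2 N(s)`, `-c ≤ q ≤ m`, is the
invariant of `X_s` with the index `q`; the other components do not contribute. Every affine scheme of
finite type over a prime field is an `X_s`, for all large `m`.

The universal system of relations is the one of helper854 (`Pool.Agent.H854.SQ`).
-/

set_option autoImplicit false

open CategoryTheory CategoryTheory.Limits AlgebraicGeometry Pool.Agent.Y116.UV Pool.Agent.Z125.UN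
  Pool.Agent.Q193.LT Pool.Agent.Q49.WU Pool.Agent.H854.SQ Pool.Agent.H367.OT
open Pool.Agent.H367.OS (isPrimeField_rat)

universe w w'



namespace Pool.Agent.Results.MP_4a177b_nt.OneSequenceOverTheIntegers

/-- The regulators of Beilinson for the smooth projective schemes over `ℚ`. -/
structure RegulatorData where
  /-- `K_n(Y)^{(q)}_ℤ ⊗ ℝ` (the integral part of Scholl) -/
  K : ℕ → ℤ → Sch ℚ → ModuleCat.{w'} ℝ
  /-- `H_𝒟^{2q-n}(Y_ℝ, ℝ(q))` -/
  D : ℕ → ℤ → Sch ℚ → ModuleCat.{w'} ℝ
  /-- the regulator -/
  reg : ∀ (n : ℕ) (q : ℤ) (Y : Sch ℚ), K n q Y ⟶ D n q Y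

/-- The regulator on `K_n(Y)^{(q)}_ℤ ⊗ ℝ` is bijective. -/
def Iso (R : RegulatorData.{w'}) (n : ℕ) (q : ℤ) (Y : Sch ℚ) : Prop :=
  Function.Bijective (R.reg n q Y).hom

/-- The groups `A_n^{q,i}`, `B_n^{q,i}` of the weight complexes: for smooth projective `Y` the maps are the
regulators (`regulators`), and the known standard properties. -/
structure Describes (R : RegulatorData.{w'}) (C : ℕ → PairData.{w} ℚ (ℤ × ℤ) ℝ) : Prop where
  regulators : ∀ n, 2 ≤ n → ∀ (q : ℤ) (Y : Sch ℚ), SmoothProj Y →
    (Iso R n q Y ↔ BijAt (C n) Prod.fst q Y)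
  weight : ∀ n, 2 ≤ n → IsWeightPair (C n)
  generated : ∀ n, 2 ≤ n → GenAt (C n) Prod.fst
  bound : ∀ n, 2 ≤ n → PBound (C n) Prod.fst n

/-- **Beilinson's conjecture for `K_j^{(j)}` and one sequence of cubic hypersurfaces over the integers.**
See the explanations above. -/
theorem result {R : RegulatorData.{w'}} {C : ℕ → PairData.{w} ℚ (ℤ × ℤ) ℝ} (h : Describes R C) :
    ((∀ (j : ℕ), 2 ≤ j → ∀ Y : Sch ℚ, SmoothProj Y → Iso R j j Y) ↔
      ∃ᶠ m in Filter.atTop, ∀ j : ℕ, 2 ≤ j → 2 * j ≤ m → ∀ N : ℕ, N < 2 ^ numRel m →
        BijAt (C j) Prod.fst (idx m j N) (cubG ℚ m)) ∧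
    (∀ n : ℕ, 2 ≤ n → ∀ q : ℤ, -(n : ℤ) ≤ q → ((∀ Y : Sch ℚ, SmoothProj Y → Iso R n q Y) ↔
      ∃ᶠ m in Filter.atTop, ∀ N : ℕ, N < 2 ^ numRel m →
        BijAt (C n) Prod.fst (idx m q N) (cubG ℚ m))) ∧
    (∀ n, 2 ≤ n → Decides n (BijAt (C n) Prod.fst)) ∧
    ∀ m : ℕ, (univG ℤ m).totalDegree ≤ 3 ∧
      ∀ (R : Type) [CommRing R], MvPolynomial.map (Int.castRingHom R) (univG ℤ m) = univG R m ∧
        Smooth (cubG R m).hom := by
  have hd : ∀ n, 2 ≤ n → Decides n (BijAt (C n) Prod.fst) := fun n hn =>
    decides_pair isPrimeField_rat (h.generated n hn) (h.weight n hn) graded_weight (h.bound n hn)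
  refine ⟨?_, fun n hn q hq => ?_, hd, cubG_facts⟩
  · have h1 := family_iff isPrimeField_rat (ι := {j : ℕ // 2 ≤ j}) (c := fun j => j.1)
      (P := fun j => BijAt (C j.1) Prod.fst)
      (fun j => bounded_pair (h.weight j.1 j.2) graded_weight (h.bound j.1 j.2))
      (fun j q g => h.generated j.1 j.2 q g) (fun j => (j.1 : ℤ))
    constructor
    · intro g
      refine (h1.mp fun j Y hY => (h.regulators j.1 j.2 _ Y hY).mp (g j.1 j.2 Y hY)).mono ?_
      intro m hm j hj hjm N hN
      exact hm ⟨j, hj⟩ hjm (by simp) (by push_cast; omega) N hN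
    · intro g j hj Y hY
      refine (h.regulators j hj _ Y hY).mpr (h1.mpr (g.mono ?_) ⟨j, hj⟩ Y hY)
      intro m hm i hi _ _ N hN
      exact hm i.1 i.2 hi N hN
  · exact (forall₂_congr fun Y hY => h.regulators n hn q Y hY).trans
      (((hd n hn).index q hq).out 1 0)

end Pool.Agent.Results.MP_4a177b_nt.OneSequenceOverTheIntegers
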